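import Mathlib

/-!
Three point kernels for operator valued Pick functions: algebraic closure properties.
-/

namespace Pool.Agent.W_MP_be8317_an

section Alg

variable {A : Type*} [CStarAlgebra A] [PartialOrder A] [StarOrderedRing A]

/-- The first kernel (points `1, 2`), as a quadratic form. -/
def K1 (f1 f2 d1 d2 b1 b2 : A) : A :=
  star b1 * d1 * b1 + star b1 * (f2 - f1) * b2 + star b2 * (f2 - f1) * b1 + star b2 * d2 * b2

/-- The second kernel (points `0, 1, 2`), as a quadratic form. -/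
def K2 (f0 f1 f2 d1 d2 b0 b1 b2 : A) : A :=
  star b0 * f0 * b0 + star b0 * f0 * b1 + star b0 * f0 * b2 + star b1 * f0 * b0 +
    star b2 * f0 * b0 + star b1 * (f1 - d1) * b1 + star b1 * (f1 + f1 - f2) * b2 +
    star b2 * (f1 + f1 - f2) * b1 + star b2 * (f2 - (d2 + d2)) * b2

/-- Both kernels are positive semidefinite. -/
structure Good (f0 f1 f2 d1 d2 : A) : Prop where
  k1 : ∀ b1 b2, 0 ≤ K1 f1 f2 d1 d2 b1 b2
  k2 : ∀ b0 b1 b2, 0 ≤ K2 f0 f1 f2 d1 d2 b0 b1 b2

/-- The parallel sum is symmetric. -/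
lemma par_symm {x z w : A} (h1 : w * (x + z) = 1) (h2 : (x + z) * w = 1) :
    x * w * z = z * w * x := by
  have e1 : x * w * z = x - x * w * x := by
    have : x * w * z = x * (w * (x + z)) - x * w * x := by noncomm_ring
    rw [this, h1, mul_one]
  have e2 : z * w * x = x - x * w * x := by
    have : z * w * x = ((x + z) * w) * x - x * w * x := by noncomm_ring
    rw [this, h2, one_mul]
  rw [e1, e2]

lemma par_off {x z w x' z' w' : A} (h2 : (x + z) * w = 1)
    (h1' : w' * (x' + z') = 1) (hs : x * w * z = z * w * x) (hs' : x' * w' * z' = z' * w' * x') :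
    z' * w' * x' - z * w * x =
      x * w * (z' - z) * (w' * x') + z * w * (x' - x) * (w' * z') := by
  have e : x * w * (z' - z) * (w' * x') + z * w * (x' - x) * (w' * z') =
      x * w * (z' * w' * x') - (x * w * z) * (w' * x') + z * w * (x' * w' * z') -
        (z * w * x) * (w' * z') := by noncomm_ring
  rw [e, hs, hs']
  have e2 : x * w * (z' * w' * x') - z * w * x * (w' * x') + z * w * (z' * w' * x') -
      z * w * x * (w' * z') = ((x + z) * w) * (z' * w' * x') - z * w * x * (w' * (x' + z')) := by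
    noncomm_ring
  rw [e2, h2, h1', one_mul, mul_one]

lemma par_off2 {x z w x' z' w' : A} (h2 : (x + z) * w = 1)
    (h1' : w' * (x' + z') = 1) (hs : x * w * z = z * w * x) (hs' : x' * w' * z' = z' * w' * x') :
    z * w * x + z * w * x - z' * w' * x' =
      x * w * (z + z - z') * (w' * x') + z * w * (x + x - x') * (w' * z') := by
  have e : x * w * (z + z - z') * (w' * x') + z * w * (x + x - x') * (w' * z') =
      (x * w * z) * (w' * x') + (x * w * z) * (w' * x') - x * w * (z' * w' * x')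
        + (z * w * x) * (w' * z') + (z * w * x) * (w' * z') - z * w * (x' * w' * z') := by
    noncomm_ring
  rw [e, hs, hs']
  have e2 : z * w * x * (w' * x') + z * w * x * (w' * x') - x * w * (z' * w' * x') +
      z * w * x * (w' * z') + z * w * x * (w' * z') - z * w * (z' * w' * x') =
      z * w * x * (w' * (x' + z')) + z * w * x * (w' * (x' + z')) -
        ((x + z) * w) * (z' * w' * x') := by noncomm_ring
  rw [e2, h2, h1', one_mul, mul_one]

lemma par_off0 {x z w x' z' w' : A}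
    (h1' : w' * (x' + z') = 1) (hs : x * w * z = z * w * x) :
    z * w * x = x * w * z * (w' * x') + z * w * x * (w' * z') := by
  rw [hs]
  have : z * w * x * (w' * x') + z * w * x * (w' * z') = z * w * x * (w' * (x' + z')) := by
    noncomm_ring
  rw [this, h1', mul_one]

/-- the lower triangular version -/
lemma par_off0' {x z w x' z' w' : A}
    (h2' : (x' + z') * w' = 1) (hs : x * w * z = z * w * x) :
    z * w * x = x' * w' * (z * (w * x)) + z' * w' * (x * (w * z)) := by
  have : x' * w' * (z * (w * x)) + z' * w' * (x * (w * z)) =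
      x' * w' * (z * w * x) + z' * w' * (x * w * z) := by noncomm_ring
  rw [this, hs]
  have : x' * w' * (z * w * x) + z' * w' * (z * w * x) = ((x' + z') * w') * (z * w * x) := by
    noncomm_ring
  rw [this, h2', one_mul]

/-- Closure under parallel sums. -/
lemma Good.par {x0 x1 x2 dx1 dx2 z0 z1 z2 dz1 dz2 w0 w1 w2 : A}
    (hX : Good x0 x1 x2 dx1 dx2) (hZ : Good z0 z1 z2 dz1 dz2)
    (sx0 : star x0 = x0) (sx1 : star x1 = x1) (sx2 : star x2 = x2)
    (sz0 : star z0 = z0) (sz1 : star z1 = z1) (sz2 : star z2 = z2)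
    (sw0 : star w0 = w0) (sw1 : star w1 = w1) (sw2 : star w2 = w2)
    (l0 : w0 * (x0 + z0) = 1) (l1 : w1 * (x1 + z1) = 1) (l2 : w2 * (x2 + z2) = 1)
    (r0 : (x0 + z0) * w0 = 1) (r1 : (x1 + z1) * w1 = 1) (r2 : (x2 + z2) * w2 = 1) :
    Good (z0 * w0 * x0) (z1 * w1 * x1) (z2 * w2 * x2)
      (x1 * w1 * dz1 * (w1 * x1) + z1 * w1 * dx1 * (w1 * z1))
      (x2 * w2 * dz2 * (w2 * x2) + z2 * w2 * dx2 * (w2 * z2)) := by
  have s0 := par_symm l0 r0
  have s1 := par_symm l1 r1
  have s2 := par_symm l2 r2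
  constructor
  · intro b1 b2
    have key : K1 (z1 * w1 * x1) (z2 * w2 * x2)
        (x1 * w1 * dz1 * (w1 * x1) + z1 * w1 * dx1 * (w1 * z1))
        (x2 * w2 * dz2 * (w2 * x2) + z2 * w2 * dx2 * (w2 * z2)) b1 b2 =
        K1 z1 z2 dz1 dz2 (w1 * x1 * b1) (w2 * x2 * b2) +
        K1 x1 x2 dx1 dx2 (w1 * z1 * b1) (w2 * z2 * b2) := by
      unfold K1
      have e12 := par_off r1 l2 s1 s2
      have e21 := par_off r2 l1 s2 s1
      have e21' : z2 * w2 * x2 - z1 * w1 * x1 =
          x2 * w2 * (z2 - z1) * (w1 * x1) + z2 * w2 * (x2 - x1) * (w1 * z1) := by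
        have : z2 * w2 * x2 - z1 * w1 * x1 = -(z1 * w1 * x1 - z2 * w2 * x2) := by noncomm_ring
        rw [this, e21]; noncomm_ring
      have t12 : star b1 * (z2 * w2 * x2 - z1 * w1 * x1) * b2 =
          star b1 * (x1 * w1 * (z2 - z1) * (w2 * x2) + z1 * w1 * (x2 - x1) * (w2 * z2)) * b2 := by
        rw [e12]
      have t21 : star b2 * (z2 * w2 * x2 - z1 * w1 * x1) * b1 =
          star b2 * (x2 * w2 * (z2 - z1) * (w1 * x1) + z2 * w2 * (x2 - x1) * (w1 * z1)) * b1 := by
        rw [e21']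
      rw [t12, t21]
      simp only [star_mul, sx1, sx2, sz1, sz2, sw1, sw2]
      noncomm_ring
    rw [key]
    exact add_nonneg (hZ.k1 _ _) (hX.k1 _ _)
  · intro b0 b1 b2
    have key : K2 (z0 * w0 * x0) (z1 * w1 * x1) (z2 * w2 * x2)
        (x1 * w1 * dz1 * (w1 * x1) + z1 * w1 * dx1 * (w1 * z1))
        (x2 * w2 * dz2 * (w2 * x2) + z2 * w2 * dx2 * (w2 * z2)) b0 b1 b2 =
        K2 z0 z1 z2 dz1 dz2 (w0 * x0 * b0) (w1 * x1 * b1) (w2 * x2 * b2) +
        K2 x0 x1 x2 dx1 dx2 (w0 * z0 * b0) (w1 * z1 * b1) (w2 * z2 * b2) := by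
      unfold K2
      have e12 := par_off2 r1 l2 s1 s2
      have e21 : z1 * w1 * x1 + z1 * w1 * x1 - z2 * w2 * x2 =
          x2 * w2 * (z1 + z1 - z2) * (w1 * x1) + z2 * w2 * (x1 + x1 - x2) * (w1 * z1) := by
        have := par_off2 r1 l2 s1 s2
        have h3 := congrArg star this
        simp only [star_add, star_sub, star_mul, sx1, sx2, sz1, sz2, sw1, sw2] at h3
        have h4 : z1 * w1 * x1 = x1 * (w1 * z1) := by rw [← mul_assoc, s1]
        have h5 : z2 * w2 * x2 = x2 * (w2 * z2) := by rw [← mul_assoc, s2]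
        rw [h4, h5, h3]
        noncomm_ring
      have e01 := par_off0 (x := x0) (z := z0) (w := w0) l1 s0
      have e02 := par_off0 (x := x0) (z := z0) (w := w0) l2 s0
      have e00 := par_off0 (x := x0) (z := z0) (w := w0) l0 s0
      have e10 := par_off0' (x := x0) (z := z0) (w := w0) r1 s0
      have e20 := par_off0' (x := x0) (z := z0) (w := w0) r2 s0
      have e11 := par_off0 (x := x1) (z := z1) (w := w1) l1 s1
      have e22 := par_off0 (x := x2) (z := z2) (w := w2) l2 s2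
      have t00 : star b0 * (z0 * w0 * x0) * b0 =
          star b0 * (x0 * w0 * z0 * (w0 * x0) + z0 * w0 * x0 * (w0 * z0)) * b0 := by rw [← e00]
      have t01 : star b0 * (z0 * w0 * x0) * b1 =
          star b0 * (x0 * w0 * z0 * (w1 * x1) + z0 * w0 * x0 * (w1 * z1)) * b1 := by rw [← e01]
      have t02 : star b0 * (z0 * w0 * x0) * b2 =
          star b0 * (x0 * w0 * z0 * (w2 * x2) + z0 * w0 * x0 * (w2 * z2)) * b2 := by rw [← e02]
      have t10 : star b1 * (z0 * w0 * x0) * b0 =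
          star b1 * (x1 * w1 * (z0 * (w0 * x0)) + z1 * w1 * (x0 * (w0 * z0))) * b0 := by
        rw [← e10]
      have t20 : star b2 * (z0 * w0 * x0) * b0 =
          star b2 * (x2 * w2 * (z0 * (w0 * x0)) + z2 * w2 * (x0 * (w0 * z0))) * b0 := by
        rw [← e20]
      have t12 : star b1 * (z1 * w1 * x1 + z1 * w1 * x1 - z2 * w2 * x2) * b2 =
          star b1 * (x1 * w1 * (z1 + z1 - z2) * (w2 * x2) +
            z1 * w1 * (x1 + x1 - x2) * (w2 * z2)) * b2 := by rw [e12]
      have t21 : star b2 * (z1 * w1 * x1 + z1 * w1 * x1 - z2 * w2 * x2) * b1 =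
          star b2 * (x2 * w2 * (z1 + z1 - z2) * (w1 * x1) +
            z2 * w2 * (x1 + x1 - x2) * (w1 * z1)) * b1 := by rw [e21]
      have t11 : star b1 * (z1 * w1 * x1 -
          (x1 * w1 * dz1 * (w1 * x1) + z1 * w1 * dx1 * (w1 * z1))) * b1 =
          star b1 * ((x1 * w1 * z1 * (w1 * x1) + z1 * w1 * x1 * (w1 * z1)) -
          (x1 * w1 * dz1 * (w1 * x1) + z1 * w1 * dx1 * (w1 * z1))) * b1 := by rw [← e11]
      have t22 : star b2 * (z2 * w2 * x2 -
          ((x2 * w2 * dz2 * (w2 * x2) + z2 * w2 * dx2 * (w2 * z2)) +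
            (x2 * w2 * dz2 * (w2 * x2) + z2 * w2 * dx2 * (w2 * z2)))) * b2 =
          star b2 * ((x2 * w2 * z2 * (w2 * x2) + z2 * w2 * x2 * (w2 * z2)) -
          ((x2 * w2 * dz2 * (w2 * x2) + z2 * w2 * dx2 * (w2 * z2)) +
            (x2 * w2 * dz2 * (w2 * x2) + z2 * w2 * dx2 * (w2 * z2)))) * b2 := by rw [← e22]
      rw [t00, t01, t02, t10, t20, t12, t21, t11, t22]
      simp only [star_mul, sx0, sx1, sx2, sz0, sz1, sz2, sw0, sw1, sw2]
      noncomm_ring
    rw [key]
    exact add_nonneg (hZ.k2 _ _ _) (hX.k2 _ _ _)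

lemma K1_smul (c : ℝ) (f1 f2 d1 d2 b1 b2 : A) :
    K1 (c • f1) (c • f2) (c • d1) (c • d2) b1 b2 = c • K1 f1 f2 d1 d2 b1 b2 := by
  unfold K1
  simp only [smul_add, ← smul_sub, mul_smul_comm, smul_mul_assoc]

lemma K2_smul (c : ℝ) (f0 f1 f2 d1 d2 b0 b1 b2 : A) :
    K2 (c • f0) (c • f1) (c • f2) (c • d1) (c • d2) b0 b1 b2 =
      c • K2 f0 f1 f2 d1 d2 b0 b1 b2 := by
  unfold K2
  simp only [smul_add, ← smul_sub, ← smul_add, mul_smul_comm, smul_mul_assoc]

lemma Good.smul {f0 f1 f2 d1 d2 : A} (h : Good f0 f1 f2 d1 d2) {c : ℝ} (hc : 0 ≤ c) :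
    Good (c • f0) (c • f1) (c • f2) (c • d1) (c • d2) := by
  constructor
  · intro b1 b2
    rw [K1_smul]
    exact smul_nonneg hc (h.k1 _ _)
  · intro b0 b1 b2
    rw [K2_smul]
    exact smul_nonneg hc (h.k2 _ _ _)

/-- The final inequality. -/
lemma Good.final {f0 f1 f2 d1 d2 : A} (h : Good f0 f1 f2 d1 d2) : 0 ≤ f2 - f0 - (d1 + d1) := by
  have h1 := h.k1 1 (-1)
  have h2 := h.k2 (-1) (1 + 1) (-1)
  have e : f2 - f0 - (d1 + d1) =
      (K1 f1 f2 d1 d2 1 (-1) + K1 f1 f2 d1 d2 1 (-1)) + K2 f0 f1 f2 d1 d2 (-1) (1 + 1) (-1) := by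
    unfold K1 K2
    simp only [star_neg, star_one, star_add]
    noncomm_ring
  rw [e]
  exact add_nonneg (add_nonneg h1 h1) h2

/-- The linear data is good. -/
lemma Good.linear {a d : A} (ha : 0 ≤ a) (hd : 0 ≤ d) : Good a (a + d) (a + d + d) d d := by
  constructor
  · intro b1 b2
    have : K1 (a + d) (a + d + d) d d b1 b2 = star (b1 + b2) * d * (b1 + b2) := by
      unfold K1
      simp only [star_add]
      noncomm_ring
    rw [this]
    exact star_left_conjugate_nonneg hd _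
  · intro b0 b1 b2
    have : K2 a (a + d) (a + d + d) d d b0 b1 b2 =
        star (b0 + b1 + b2) * a * (b0 + b1 + b2) := by
      unfold K2
      simp only [star_add]
      noncomm_ring
    rw [this]
    exact star_left_conjugate_nonneg ha _

end Alg

end Pool.Agent.W_MP_be8317_an
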