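import Mathlib
import Pool.Agent.W_MP_be8317_an.Kernel

/-!
Integral representation of the weighted geometric mean and closure of `Good` under it.
-/

namespace Pool.Agent.W_MP_be8317_an

open MeasureTheory Set Real

variable {A : Type*} [CStarAlgebra A] [PartialOrder A] [StarOrderedRing A]

lemma integrable_conj {ν : Measure ℝ} {f : ℝ → A} (hf : Integrable f ν) (a b : A) :
    Integrable (fun u => a * f u * b) ν :=
  (hf.const_mul a).mul_const b

lemma integral_conj {ν : Measure ℝ} {f : ℝ → A} (hf : Integrable f ν) (a b : A) :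
    ∫ u, a * f u * b ∂ν = a * (∫ u, f u ∂ν) * b := by
  rw [integral_mul_const_of_integrable (hf.const_mul a), integral_const_mul_of_integrable hf]

lemma iadd {ν : Measure ℝ} {f g : ℝ → A} (hf : Integrable f ν) (hg : Integrable g ν) :
    Integrable (fun u => f u + g u) ν := hf.add hg

lemma iadd_eq {ν : Measure ℝ} {f g : ℝ → A} (hf : Integrable f ν) (hg : Integrable g ν) :
    (∫ u, f u ∂ν) + (∫ u, g u ∂ν) = ∫ u, (f u + g u) ∂ν := (integral_add hf hg).symm

lemma isub_eq {ν : Measure ℝ} {f g : ℝ → A} (hf : Integrable f ν) (hg : Integrable g ν) :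
    (∫ u, f u ∂ν) - (∫ u, g u ∂ν) = ∫ u, (f u - g u) ∂ν := (integral_sub hf hg).symm

/-- `Good` passes to integrals. -/
lemma Good.integral {ν : Measure ℝ} {f0 f1 f2 d1 d2 : ℝ → A}
    (h0 : Integrable f0 ν) (h1 : Integrable f1 ν) (h2 : Integrable f2 ν)
    (hd1 : Integrable d1 ν) (hd2 : Integrable d2 ν)
    (hg : ∀ᵐ u ∂ν, Good (f0 u) (f1 u) (f2 u) (d1 u) (d2 u)) :
    Good (∫ u, f0 u ∂ν) (∫ u, f1 u ∂ν) (∫ u, f2 u ∂ν) (∫ u, d1 u ∂ν) (∫ u, d2 u ∂ν) := by
  have e0 : Integrable (fun u => f2 u - f1 u) ν := h2.sub h1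
  have e1 : Integrable (fun u => f1 u - d1 u) ν := h1.sub hd1
  have e2 : Integrable (fun u => f1 u + f1 u - f2 u) ν := (h1.add h1).sub h2
  have e3 : Integrable (fun u => f2 u - (d2 u + d2 u)) ν := h2.sub (hd2.add hd2)
  have q0 : (∫ u, f2 u ∂ν) - (∫ u, f1 u ∂ν) = ∫ u, (f2 u - f1 u) ∂ν := (integral_sub h2 h1).symm
  have q1 : (∫ u, f1 u ∂ν) - (∫ u, d1 u ∂ν) = ∫ u, (f1 u - d1 u) ∂ν := (integral_sub h1 hd1).symm
  have q2 : (∫ u, f1 u ∂ν) + (∫ u, f1 u ∂ν) - (∫ u, f2 u ∂ν) =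
      ∫ u, (f1 u + f1 u - f2 u) ∂ν := by
    rw [iadd_eq h1 h1, isub_eq (iadd h1 h1) h2]
  have q3 : (∫ u, f2 u ∂ν) - ((∫ u, d2 u ∂ν) + (∫ u, d2 u ∂ν)) =
      ∫ u, (f2 u - (d2 u + d2 u)) ∂ν := by
    rw [iadd_eq hd2 hd2, isub_eq h2 (iadd hd2 hd2)]
  constructor
  · intro b1 b2
    have key : K1 (∫ u, f1 u ∂ν) (∫ u, f2 u ∂ν) (∫ u, d1 u ∂ν) (∫ u, d2 u ∂ν) b1 b2 =
        ∫ u, K1 (f1 u) (f2 u) (d1 u) (d2 u) b1 b2 ∂ν := by
      unfold K1
      rw [q0, ← integral_conj hd1, ← integral_conj e0, ← integral_conj e0, ← integral_conj hd2]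
      have i1 := integrable_conj hd1 (star b1) b1
      have i2 := integrable_conj e0 (star b1) b2
      have i3 := integrable_conj e0 (star b2) b1
      have i4 := integrable_conj hd2 (star b2) b2
      have j1 := iadd i1 i2
      have j2 := iadd j1 i3
      rw [iadd_eq i1 i2, iadd_eq j1 i3, iadd_eq j2 i4]
    rw [key]
    apply integral_nonneg_of_ae
    filter_upwards [hg] with u hu
    exact hu.k1 b1 b2
  · intro b0 b1 b2
    have key : K2 (∫ u, f0 u ∂ν) (∫ u, f1 u ∂ν) (∫ u, f2 u ∂ν) (∫ u, d1 u ∂ν) (∫ u, d2 u ∂ν)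
        b0 b1 b2 = ∫ u, K2 (f0 u) (f1 u) (f2 u) (d1 u) (d2 u) b0 b1 b2 ∂ν := by
      unfold K2
      rw [q1, q2, q3]
      rw [← integral_conj h0, ← integral_conj h0, ← integral_conj h0, ← integral_conj h0,
        ← integral_conj h0, ← integral_conj e1, ← integral_conj e2, ← integral_conj e2,
        ← integral_conj e3]
      have i1 := integrable_conj h0 (star b0) b0
      have i2 := integrable_conj h0 (star b0) b1
      have i3 := integrable_conj h0 (star b0) b2
      have i4 := integrable_conj h0 (star b1) b0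
      have i5 := integrable_conj h0 (star b2) b0
      have i6 := integrable_conj e1 (star b1) b1
      have i7 := integrable_conj e2 (star b1) b2
      have i8 := integrable_conj e2 (star b2) b1
      have i9 := integrable_conj e3 (star b2) b2
      have j1 := iadd i1 i2
      have j2 := iadd j1 i3
      have j3 := iadd j2 i4
      have j4 := iadd j3 i5
      have j5 := iadd j4 i6
      have j6 := iadd j5 i7
      have j7 := iadd j6 i8
      rw [iadd_eq i1 i2, iadd_eq j1 i3, iadd_eq j2 i4, iadd_eq j3 i5, iadd_eq j4 i6,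
        iadd_eq j5 i7, iadd_eq j6 i8, iadd_eq j7 i9]
    rw [key]
    apply integral_nonneg_of_ae
    filter_upwards [hg] with u hu
    exact hu.k2 b0 b1 b2

end Pool.Agent.W_MP_be8317_an
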