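import Mathlib
import Pool.Agent.W_MP_be8317_an.Analysis

/-!
Integral representation of the weighted geometric mean and closure of `Good` under it.
-/

namespace Pool.Agent.W_MP_be8317_an

open MeasureTheory Set Real
open scoped NNReal

/-! ### Scalar facts -/

section Scalar

variable {p : ℝ} {μ : Measure ℝ}

/-- The property of the representing measure. -/
def RepMeasure (p : ℝ) (μ : Measure ℝ) : Prop :=
  ∀ x ∈ Ici (0 : ℝ), (IntegrableOn (fun t => rpowIntegrand₀₁ p t x) (Ioi 0) μ) ∧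
    x ^ p = ∫ t in Ioi 0, rpowIntegrand₀₁ p t x ∂μ

lemma integrand_one (hp : p ∈ Ioo 0 1) {u : ℝ} (hu : 0 < u) :
    rpowIntegrand₀₁ p u 1 = u ^ (p - 1) * (1 + u)⁻¹ := by
  rw [rpowIntegrand₀₁_eq_pow_div hp hu.le zero_le_one, mul_one, div_eq_mul_inv, add_comm]

lemma integrableOn_base (hp : p ∈ Ioo 0 1) (hμ : RepMeasure p μ) :
    IntegrableOn (fun u => u ^ (p - 1) * (1 + u)⁻¹) (Ioi 0) μ := by
  have := (hμ 1 (by simp)).1
  refine this.congr_fun ?_ measurableSet_Ioi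
  intro u hu
  exact integrand_one hp hu

lemma integral_base (hp : p ∈ Ioo 0 1) (hμ : RepMeasure p μ) :
    ∫ u in Ioi 0, u ^ (p - 1) * (1 + u)⁻¹ ∂μ = 1 := by
  have h1 := (hμ 1 (by simp)).2
  rw [Real.one_rpow] at h1
  calc ∫ u in Ioi 0, u ^ (p - 1) * (1 + u)⁻¹ ∂μ = ∫ u in Ioi 0, rpowIntegrand₀₁ p u 1 ∂μ := by
        refine setIntegral_congr_fun measurableSet_Ioi ?_
        intro u hu
        exact (integrand_one hp hu).symm
    _ = 1 := h1.symm

lemma continuousOn_rpow_Ioi (p : ℝ) : ContinuousOn (fun u : ℝ => u ^ (p - 1)) (Ioi 0) :=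
  fun u hu => (Real.continuousAt_rpow_const u _ (Or.inl (ne_of_gt hu))).continuousWithinAt

/-- Integrability of a weighted function with values in a Banach space. -/
lemma integrableOn_weighted {E : Type*} [NormedAddCommGroup E] [NormedSpace ℝ E]
    (hp : p ∈ Ioo 0 1) (hμ : RepMeasure p μ)
    {F : ℝ → E} (hF : ContinuousOn F (Ioi 0)) {c : ℝ}
    (hb : ∀ u, 0 < u → ‖F u‖ ≤ c * (1 + u)⁻¹) :
    IntegrableOn (fun u => u ^ (p - 1) • F u) (Ioi 0) μ := by
  have hbase := (integrableOn_base hp hμ).const_mul c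
  refine Integrable.mono' hbase ?_ ?_
  · exact ((continuousOn_rpow_Ioi p).smul hF).aestronglyMeasurable measurableSet_Ioi
  · filter_upwards [ae_restrict_mem measurableSet_Ioi] with u hu
    have hu' : (0 : ℝ) < u := hu
    rw [norm_smul, Real.norm_of_nonneg (Real.rpow_nonneg hu'.le _)]
    calc u ^ (p - 1) * ‖F u‖ ≤ u ^ (p - 1) * (c * (1 + u)⁻¹) :=
          mul_le_mul_of_nonneg_left (hb u hu') (Real.rpow_nonneg hu'.le _)
      _ = c * (u ^ (p - 1) * (1 + u)⁻¹) := by ring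

lemma continuousOn_inv1 : ContinuousOn (fun u : ℝ => (1 + u)⁻¹) (Ioi 0) := by
  apply ContinuousOn.inv₀ (by fun_prop)
  intro u hu
  have : (0 : ℝ) < u := hu
  positivity

lemma integral_beta (hp : p ∈ Ioo 0 1) (hμ : RepMeasure p μ) :
    ∫ u in Ioi 0, u ^ (p - 1) • (u * ((1 + u)⁻¹ * (1 + u)⁻¹)) ∂μ = p := by
  set β := ∫ u in Ioi 0, u ^ (p - 1) • (u * ((1 + u)⁻¹ * (1 + u)⁻¹)) ∂μ with hβ
  have hintβ : IntegrableOn (fun u => u ^ (p - 1) • (u * ((1 + u)⁻¹ * (1 + u)⁻¹))) (Ioi 0) μ := by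
    apply integrableOn_weighted hp hμ (c := 1)
    · exact continuousOn_id.mul (continuousOn_inv1.mul continuousOn_inv1)
    · intro u hu
      rw [Real.norm_of_nonneg (by positivity), one_mul]
      have h1 : u * (1 + u)⁻¹ ≤ 1 := by
        rw [← div_eq_mul_inv, div_le_one (by positivity)]
        linarith
      calc u * ((1 + u)⁻¹ * (1 + u)⁻¹) = (u * (1 + u)⁻¹) * (1 + u)⁻¹ := by ring
        _ ≤ 1 * (1 + u)⁻¹ := mul_le_mul_of_nonneg_right h1 (by positivity)
        _ = (1 + u)⁻¹ := one_mul _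
  have htan : ∀ x : ℝ, 0 < x → x ^ p ≤ 1 + β * (x - 1) := by
    intro x hx
    obtain ⟨hxi, hxe⟩ := hμ x hx.le
    rw [hxe]
    have hrhs : 1 + β * (x - 1) = ∫ u in Ioi 0, (u ^ (p - 1) * (1 + u)⁻¹ +
        (u ^ (p - 1) • (u * ((1 + u)⁻¹ * (1 + u)⁻¹))) * (x - 1)) ∂μ := by
      rw [integral_add (integrableOn_base hp hμ) (hintβ.mul_const _), integral_base hp hμ,
        integral_mul_const]
    rw [hrhs]
    apply setIntegral_mono_on hxi
      ((integrableOn_base hp hμ).add (hintβ.mul_const _)) measurableSet_Ioi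
    intro u hu
    have hu' : (0 : ℝ) < u := hu
    rw [rpowIntegrand₀₁_eq_pow_div hp hu'.le hx.le]
    have hk : x / (u + x) ≤ (1 + u)⁻¹ + u * ((1 + u)⁻¹ * (1 + u)⁻¹) * (x - 1) := by
      rw [div_le_iff₀ (by positivity)]
      have : ((1 + u)⁻¹ + u * ((1 + u)⁻¹ * (1 + u)⁻¹) * (x - 1)) * (u + x) - x =
          u * (x - 1) ^ 2 * ((1 + u)⁻¹ * (1 + u)⁻¹) := by
        field_simp
        ring
      have h2 : 0 ≤ u * (x - 1) ^ 2 * ((1 + u)⁻¹ * (1 + u)⁻¹) := by positivity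
      linarith
    calc u ^ (p - 1) * x / (u + x) = u ^ (p - 1) * (x / (u + x)) := by ring
      _ ≤ u ^ (p - 1) * ((1 + u)⁻¹ + u * ((1 + u)⁻¹ * (1 + u)⁻¹) * (x - 1)) :=
          mul_le_mul_of_nonneg_left hk (Real.rpow_nonneg hu'.le _)
      _ = _ := by simp only [Pi.add_apply, smul_eq_mul]; ring
  have hmin : IsLocalMin (fun x : ℝ => 1 + β * (x - 1) - x ^ p) 1 := by
    filter_upwards [lt_mem_nhds (zero_lt_one : (0 : ℝ) < 1)] with x hx
    have := htan x hx
    simp only [sub_self, mul_zero, add_zero, Real.one_rpow]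
    linarith
  have hder : HasDerivAt (fun x : ℝ => 1 + β * (x - 1) - x ^ p) (β - p) 1 := by
    have h1 : HasDerivAt (fun x : ℝ => 1 + β * (x - 1)) β 1 := by
      have := (((hasDerivAt_id (1 : ℝ)).sub_const 1).const_mul β).const_add 1
      simpa using this
    have h2 : HasDerivAt (fun x : ℝ => x ^ p) p 1 := by
      have := Real.hasDerivAt_rpow_const (x := 1) (p := p) (Or.inl one_ne_zero)
      simpa using this
    exact h1.sub h2
  have := hmin.hasDerivAt_eq_zero hder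
  linarith

lemma integral_alpha (hp : p ∈ Ioo 0 1) (hμ : RepMeasure p μ) :
    ∫ u in Ioi 0, u ^ (p - 1) • ((1 + u)⁻¹ * (1 + u)⁻¹) ∂μ = 1 - p := by
  have hint1 : IntegrableOn (fun u => u ^ (p - 1) • ((1 + u)⁻¹ * (1 + u)⁻¹)) (Ioi 0) μ := by
    apply integrableOn_weighted hp hμ (c := 1)
    · exact continuousOn_inv1.mul continuousOn_inv1
    · intro u hu
      rw [Real.norm_of_nonneg (by positivity), one_mul]
      have h1 : (1 + u)⁻¹ ≤ 1 := inv_le_one_of_one_le₀ (by linarith)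
      calc (1 + u)⁻¹ * (1 + u)⁻¹ ≤ 1 * (1 + u)⁻¹ := mul_le_mul_of_nonneg_right h1 (by positivity)
        _ = (1 + u)⁻¹ := one_mul _
  have hint2 : IntegrableOn (fun u => u ^ (p - 1) • (u * ((1 + u)⁻¹ * (1 + u)⁻¹))) (Ioi 0) μ := by
    apply integrableOn_weighted hp hμ (c := 1)
    · exact continuousOn_id.mul (continuousOn_inv1.mul continuousOn_inv1)
    · intro u hu
      rw [Real.norm_of_nonneg (by positivity), one_mul]
      have h1 : u * (1 + u)⁻¹ ≤ 1 := by
        rw [← div_eq_mul_inv, div_le_one (by positivity)]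
        linarith
      calc u * ((1 + u)⁻¹ * (1 + u)⁻¹) = (u * (1 + u)⁻¹) * (1 + u)⁻¹ := by ring
        _ ≤ 1 * (1 + u)⁻¹ := mul_le_mul_of_nonneg_right h1 (by positivity)
        _ = (1 + u)⁻¹ := one_mul _
  have h1 : (∫ u in Ioi 0, u ^ (p - 1) • ((1 + u)⁻¹ * (1 + u)⁻¹) ∂μ) +
      (∫ u in Ioi 0, u ^ (p - 1) • (u * ((1 + u)⁻¹ * (1 + u)⁻¹)) ∂μ) = 1 := by
    rw [← integral_add hint1 hint2]
    calc _ = ∫ u in Ioi 0, u ^ (p - 1) * (1 + u)⁻¹ ∂μ := by
          refine setIntegral_congr_fun measurableSet_Ioi ?_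
          intro u hu
          have hu' : (0 : ℝ) < u := hu
          simp only [smul_eq_mul]
          have : (1 + u) ≠ 0 := by positivity
          field_simp
      _ = 1 := integral_base hp hμ
  rw [integral_beta hp hμ] at h1
  linarith

end Scalar

/-! ### C*-algebra facts -/

section CStar

variable {A : Type*} [CStarAlgebra A] [PartialOrder A] [StarOrderedRing A]

variable (A) in
/-- A common representing measure for the scalar and the operator power. -/
lemma exists_mu {p : ℝ≥0} (hp : p ∈ Ioo 0 1) :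
    ∃ μ : Measure ℝ, RepMeasure p μ ∧ ∀ a : A, 0 ≤ a →
      (IntegrableOn (fun t => cfcₙ (rpowIntegrand₀₁ p t) a) (Ioi 0) μ)
      ∧ a ^ (p : ℝ) = ∫ t in Ioi 0, cfcₙ (rpowIntegrand₀₁ p t) a ∂μ := by
  have hp' : (p : ℝ) ∈ Ioo (0 : ℝ) 1 := by exact_mod_cast hp
  obtain ⟨μ, hμ⟩ := exists_measure_rpow_eq_integral_rpowIntegrand₀₁ hp'
  refine ⟨μ, hμ, fun a (ha : 0 ≤ a) => ?_⟩
  nontriviality A
  have p_pos : 0 < (p : ℝ) := by exact_mod_cast hp.1
  let f t := rpowIntegrand₀₁ p t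
  let maxr := sSup (quasispectrum ℝ a)
  have maxr_nonneg : 0 ≤ maxr :=
    le_csSup_of_le (b := 0) (IsCompact.bddAbove (by grind)) (by simp) (by simp)
  let bound (t : ℝ) := ‖f t maxr‖
  have hf : ContinuousOn (Function.uncurry f) (Ioi (0 : ℝ) ×ˢ quasispectrum ℝ a) := by
    refine continuousOn_rpowIntegrand₀₁_uncurry hp' (quasispectrum ℝ a) ?_
    grind
  have hbound : ∀ᵐ t ∂μ.restrict (Ioi 0), ∀ z ∈ quasispectrum ℝ a, ‖f t z‖ ≤ bound t := by
    filter_upwards [ae_restrict_mem measurableSet_Ioi] with t ht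
    intro z hz
    have hz' : 0 ≤ z := by grind
    unfold bound f
    rw [Real.norm_of_nonneg (rpowIntegrand₀₁_nonneg p_pos (le_of_lt ht) hz'),
        Real.norm_of_nonneg (rpowIntegrand₀₁_nonneg p_pos (le_of_lt ht) maxr_nonneg)]
    refine rpowIntegrand₀₁_monotoneOn hp' (le_of_lt ht) hz' maxr_nonneg ?_
    exact le_csSup (IsCompact.bddAbove (quasispectrum.isCompact _)) hz
  have hbound_finite_integral : HasFiniteIntegral bound (μ.restrict (Ioi 0)) := by
    rw [hasFiniteIntegral_norm_iff]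
    exact (hμ maxr maxr_nonneg).1.2
  have hmapzero : ∀ᵐ (x : ℝ) ∂μ.restrict (Ioi 0), rpowIntegrand₀₁ p x 0 = 0 := by
    filter_upwards [ae_restrict_mem measurableSet_Ioi]
    simp
  refine ⟨?integrable, ?integral⟩
  case integrable =>
    exact integrableOn_cfcₙ measurableSet_Ioi _ bound a hf hmapzero hbound hbound_finite_integral
  case integral => calc
    a ^ (p : ℝ) = a ^ p := (CFC.nnrpow_eq_rpow hp.1).symm
    _ = cfcₙ (fun r => ∫ t in Ioi 0, rpowIntegrand₀₁ p t r ∂μ) a := by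
      rw [CFC.nnrpow_eq_cfcₙ_real _ _]
      exact cfcₙ_congr fun r _ ↦ (hμ r (by grind)).2
    _ = _ := cfcₙ_setIntegral measurableSet_Ioi _ bound a hf hmapzero hbound
                hbound_finite_integral ha.isSelfAdjoint

lemma cfcn_integrand {p t : ℝ} (hp : p ∈ Ioo 0 1) (ht : 0 < t) {x : A} (hx : 0 ≤ x) :
    cfcₙ (rpowIntegrand₀₁ p t) x =
      algebraMap ℝ A (t ^ (p - 1)) - t ^ p • Ring.inverse (algebraMap ℝ A t + x) := by
  have hq : quasispectrum ℝ x ⊆ Ici 0 := fun r hr => quasispectrum_nonneg_of_nonneg x hx r hr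
  have hs : spectrum ℝ x ⊆ Ici 0 := fun r hr => spectrum_nonneg_of_nonneg hx hr
  have hsa : IsSelfAdjoint x := IsSelfAdjoint.of_nonneg hx
  rw [cfcₙ_eq_cfc (hf := (continuousOn_rpowIntegrand₀₁_Ici hp ht).mono hq)
    (hf0 := rpowIntegrand₀₁_zero_right)]
  rw [rpowIntegrand₀₁_eq_sub (ne_of_lt hp.2) ht]
  have hspectrum : ∀ r ∈ spectrum ℝ x, t + r ≠ 0 := by
    intro r hr
    have : (0 : ℝ) ≤ r := hs hr
    positivity
  have hadd : ContinuousOn (fun z : ℝ => t + z) (spectrum ℝ x) := by fun_prop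
  have hg : ContinuousOn (fun z : ℝ => (t + z)⁻¹) (spectrum ℝ x) := hadd.inv₀ hspectrum
  have hg2 : ContinuousOn (fun z : ℝ => t ^ p * (t + z)⁻¹) (spectrum ℝ x) :=
    continuousOn_const.mul hg
  rw [cfc_sub (fun _ : ℝ => t ^ (p - 1)) (fun z : ℝ => t ^ p * (t + z)⁻¹) x
    continuousOn_const hg2]
  rw [cfc_const _ x hsa, cfc_const_mul _ _ x hg, cfc_inv _ _ hspectrum hadd hsa,
    cfc_const_add t (fun z : ℝ => z) x continuousOn_id hsa, cfc_id' ℝ x hsa]

omit [PartialOrder A] [StarOrderedRing A] in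
lemma inv_unique {a b : A} (ha : IsUnit a) (h : a * b = 1) : Ring.inverse a = b := by
  calc Ring.inverse a = Ring.inverse a * (a * b) := by rw [h, mul_one]
    _ = b := by rw [← mul_assoc, Ring.inverse_mul_cancel _ ha, one_mul]

/-- The resolvent. -/
noncomputable def W (X Y : A) (u : ℝ) : A := Ring.inverse (X + u • Y)

variable {X Y : A}

lemma sp_add (hX : IsStrictlyPositive X) (hY : IsStrictlyPositive Y) {u : ℝ} (hu : 0 < u) :
    IsStrictlyPositive (X + u • Y) :=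
  hX.add_nonneg (smul_nonneg hu.le hY.nonneg)

lemma W_mul (hX : IsStrictlyPositive X) (hY : IsStrictlyPositive Y) {u : ℝ} (hu : 0 < u) :
    W X Y u * (X + u • Y) = 1 := Ring.inverse_mul_cancel _ (sp_add hX hY hu).isUnit

lemma mul_W (hX : IsStrictlyPositive X) (hY : IsStrictlyPositive Y) {u : ℝ} (hu : 0 < u) :
    (X + u • Y) * W X Y u = 1 := Ring.mul_inverse_cancel _ (sp_add hX hY hu).isUnit

lemma W_nonneg (hX : IsStrictlyPositive X) (hY : IsStrictlyPositive Y) {u : ℝ} (hu : 0 < u) :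
    0 ≤ W X Y u := (sp_add hX hY hu).ringInverse.nonneg

lemma star_W (hX : IsStrictlyPositive X) (hY : IsStrictlyPositive Y) {u : ℝ} (hu : 0 < u) :
    star (W X Y u) = W X Y u := (W_nonneg hX hY hu).isSelfAdjoint

lemma continuousOn_W (hX : IsStrictlyPositive X) (hY : IsStrictlyPositive Y) :
    ContinuousOn (W X Y) (Ioi 0) := by
  intro u hu
  apply ContinuousAt.continuousWithinAt
  obtain ⟨v, hv⟩ := (sp_add hX hY hu).isUnit
  have h1 := NormedRing.inverse_continuousAt v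
  rw [hv] at h1
  exact ContinuousAt.comp (f := fun u : ℝ => X + u • Y) h1 (by fun_prop)

lemma norm_W_le (hX : IsStrictlyPositive X) (hY : IsStrictlyPositive Y) :
    ∃ c : ℝ, 0 < c ∧ ∀ u, 0 < u → ‖W X Y u‖ ≤ c * (1 + u)⁻¹ := by
  rcases subsingleton_or_nontrivial A with hA | hA
  · exact ⟨1, one_pos, fun u hu => by
      rw [Subsingleton.elim (W X Y u) 0, norm_zero]; positivity⟩
  obtain ⟨r, hr, hrX⟩ : ∃ r > 0, (algebraMap ℝ A) r ≤ X :=
    (CFC.exists_pos_algebraMap_le_iff hX.isSelfAdjoint).2 fun x hx ↦ hX.spectrum_pos hx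
  obtain ⟨s, hs, hsY⟩ : ∃ r > 0, (algebraMap ℝ A) r ≤ Y :=
    (CFC.exists_pos_algebraMap_le_iff hY.isSelfAdjoint).2 fun x hx ↦ hY.spectrum_pos hx
  set γ := min r s with hγ
  have hγ0 : 0 < γ := lt_min hr hs
  refine ⟨γ⁻¹, inv_pos.mpr hγ0, fun u hu => ?_⟩
  have hk : 0 < γ * (1 + u) := by positivity
  have hle : algebraMap ℝ A (γ * (1 + u)) ≤ X + u • Y := by
    have h1 : algebraMap ℝ A γ ≤ X :=
      le_trans (algebraMap_mono A (min_le_left r s)) hrX
    have h2 : algebraMap ℝ A γ ≤ Y :=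
      le_trans (algebraMap_mono A (min_le_right r s)) hsY
    have h3 : u • algebraMap ℝ A γ ≤ u • Y := smul_le_smul_of_nonneg_left h2 hu.le
    calc algebraMap ℝ A (γ * (1 + u)) = algebraMap ℝ A γ + u • algebraMap ℝ A γ := by
          rw [mul_add, mul_one, map_add, map_mul, Algebra.smul_def, Algebra.commutes]
      _ ≤ X + u • Y := add_le_add h1 h3
  have hsp : IsStrictlyPositive (algebraMap ℝ A (γ * (1 + u))) := by
    refine ⟨algebraMap_nonneg A hk.le, ?_⟩
    exact (IsUnit.mk0 _ hk.ne').map (algebraMap ℝ A)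
  have hinv := CStarAlgebra.ringInverse_le_ringInverse hle hsp
  have heq : Ring.inverse (algebraMap ℝ A (γ * (1 + u))) = algebraMap ℝ A (γ * (1 + u))⁻¹ := by
    apply inv_unique hsp.isUnit
    rw [← map_mul, mul_inv_cancel₀ hk.ne', map_one]
  rw [heq] at hinv
  have := (CStarAlgebra.norm_le_iff_le_algebraMap (W X Y u) (inv_pos.mpr hk).le
    (W_nonneg hX hY hu)).mpr hinv
  rwa [mul_inv] at this

/-- The kernel identity for a pair of points, integrated form: the mean. -/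
lemma repr_mean {p : ℝ} (hp : p ∈ Ioo 0 1) {μ : Measure ℝ}
    (hμ : ∀ a : A, 0 ≤ a →
      (IntegrableOn (fun t => cfcₙ (rpowIntegrand₀₁ p t) a) (Ioi 0) μ)
      ∧ a ^ p = ∫ t in Ioi 0, cfcₙ (rpowIntegrand₀₁ p t) a ∂μ)
    (hX : IsStrictlyPositive X) (hY : IsStrictlyPositive Y) :
    Y ^ ((1 : ℝ) / 2) * (Y ^ (-((1 : ℝ) / 2)) * X * Y ^ (-((1 : ℝ) / 2))) ^ p * Y ^ ((1 : ℝ) / 2) =
      ∫ u in Ioi 0, u ^ (p - 1) • (Y * W X Y u * X) ∂μ := by
  set S := Y ^ ((1 : ℝ) / 2) with hS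
  set T := Y ^ (-((1 : ℝ) / 2)) with hT
  have hST : S * T = 1 := CFC.rpow_mul_rpow_neg _ hY
  have hTS : T * S = 1 := CFC.rpow_neg_mul_rpow _ hY
  have hSS : S * S = Y := by
    rw [hS, ← CFC.rpow_add hY.isUnit]
    norm_num
    exact CFC.rpow_one Y hY.nonneg
  have hTsa : star T = T := (IsSelfAdjoint.of_nonneg CFC.rpow_nonneg)
  have hC : 0 ≤ T * X * T := by
    have := star_left_conjugate_nonneg hX.nonneg T
    rwa [hTsa] at this
  obtain ⟨hint, heq⟩ := hμ (T * X * T) hC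
  rw [heq, ← integral_conj hint]
  refine setIntegral_congr_fun measurableSet_Ioi ?_
  intro u hu
  have hu' : (0 : ℝ) < u := hu
  simp only
  rw [cfcn_integrand hp hu' hC]
  have hinv : Ring.inverse (algebraMap ℝ A u + T * X * T) = S * W X Y u * S := by
    have hsum : algebraMap ℝ A u + T * X * T = T * (X + u • Y) * T := by
      have : T * Y * T = 1 := by
        rw [← hSS]
        calc T * (S * S) * T = (T * S) * (S * T) := by noncomm_ring
          _ = 1 := by rw [hTS, hST, one_mul]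
      calc algebraMap ℝ A u + T * X * T = u • (T * Y * T) + T * X * T := by
            rw [this, Algebra.algebraMap_eq_smul_one]
        _ = T * (X + u • Y) * T := by
            rw [mul_add, add_mul, mul_smul_comm, smul_mul_assoc, add_comm]
    rw [hsum]
    apply inv_unique
    · have hTu : IsUnit T := ⟨⟨T, S, hTS, hST⟩, rfl⟩
      exact (hTu.mul (sp_add hX hY hu').isUnit).mul hTu
    · calc T * (X + u • Y) * T * (S * W X Y u * S) =
            T * ((X + u • Y) * (T * S) * W X Y u) * S := by noncomm_ring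
        _ = 1 := by rw [hTS, mul_one, mul_W hX hY hu', mul_one, hTS]
  rw [hinv]
  have e1 : S * (algebraMap ℝ A (u ^ (p - 1)) - u ^ p • (S * W X Y u * S)) * S =
      u ^ (p - 1) • Y - u ^ p • (Y * W X Y u * Y) := by
    rw [mul_sub, sub_mul, Algebra.algebraMap_eq_smul_one, mul_smul_comm, mul_one, smul_mul_assoc,
      hSS, mul_smul_comm, smul_mul_assoc]
    congr 2
    calc S * (S * W X Y u * S) * S = (S * S) * W X Y u * (S * S) := by noncomm_ring
      _ = _ := by rw [hSS]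
  rw [e1]
  have e2 : Y = Y * W X Y u * X + u • (Y * W X Y u * Y) := by
    calc Y = Y * (W X Y u * (X + u • Y)) := by rw [W_mul hX hY hu', mul_one]
      _ = Y * W X Y u * X + u • (Y * W X Y u * Y) := by
          rw [mul_add, mul_add, mul_smul_comm, mul_smul_comm, mul_assoc, mul_assoc]
  have e3 : u ^ p = u ^ (p - 1) * u := by
    rw [← Real.rpow_add_one hu'.ne']
    ring_nf
  calc u ^ (p - 1) • Y - u ^ p • (Y * W X Y u * Y)
      = u ^ (p - 1) • (Y * W X Y u * X + u • (Y * W X Y u * Y)) -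
        u ^ p • (Y * W X Y u * Y) := by rw [← e2]
    _ = u ^ (p - 1) • (Y * W X Y u * X) := by
        rw [smul_add, smul_smul, ← e3, add_sub_cancel_right]

/-- the derivative integrand -/
noncomputable def dI (X Y dX dY : A) (u : ℝ) : A :=
  X * W X Y u * dY * (W X Y u * X) + u • (Y * W X Y u * dX * (W X Y u * Y))

lemma integrableOn_mean {p : ℝ} (hp : p ∈ Ioo 0 1) {μ : Measure ℝ} (hμ : RepMeasure p μ)
    (hX : IsStrictlyPositive X) (hY : IsStrictlyPositive Y) :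
    IntegrableOn (fun u => u ^ (p - 1) • (Y * W X Y u * X)) (Ioi 0) μ := by
  obtain ⟨c, hc, hb⟩ := norm_W_le hX hY
  apply integrableOn_weighted hp hμ (c := ‖Y‖ * c * ‖X‖)
  · exact (continuousOn_const.mul (continuousOn_W hX hY)).mul continuousOn_const
  · intro u hu
    calc ‖Y * W X Y u * X‖ ≤ ‖Y‖ * ‖W X Y u‖ * ‖X‖ :=
          le_trans (norm_mul_le _ _) (mul_le_mul_of_nonneg_right (norm_mul_le _ _) (norm_nonneg _))
      _ ≤ ‖Y‖ * (c * (1 + u)⁻¹) * ‖X‖ := by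
          apply mul_le_mul_of_nonneg_right _ (norm_nonneg _)
          exact mul_le_mul_of_nonneg_left (hb u hu) (norm_nonneg _)
      _ = ‖Y‖ * c * ‖X‖ * (1 + u)⁻¹ := by ring

lemma norm_five (a b c d e : A) : ‖a * b * c * (d * e)‖ ≤ ‖a‖ * ‖b‖ * ‖c‖ * (‖d‖ * ‖e‖) := by
  calc ‖a * b * c * (d * e)‖ ≤ ‖a * b * c‖ * ‖d * e‖ := norm_mul_le _ _
    _ ≤ (‖a‖ * ‖b‖ * ‖c‖) * (‖d‖ * ‖e‖) := by
        apply mul_le_mul _ (norm_mul_le _ _) (norm_nonneg _) (by positivity)
        exact le_trans (norm_mul_le _ _)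
          (mul_le_mul_of_nonneg_right (norm_mul_le _ _) (norm_nonneg _))

lemma integrableOn_dI {p : ℝ} (hp : p ∈ Ioo 0 1) {μ : Measure ℝ} (hμ : RepMeasure p μ)
    (hX : IsStrictlyPositive X) (hY : IsStrictlyPositive Y) (dX dY : A) :
    IntegrableOn (fun u => u ^ (p - 1) • dI X Y dX dY u) (Ioi 0) μ := by
  obtain ⟨c, hc, hb⟩ := norm_W_le hX hY
  have hW := continuousOn_W hX hY
  apply integrableOn_weighted hp hμ
    (c := ‖X‖ * c * ‖dY‖ * (c * ‖X‖) + ‖Y‖ * c * ‖dX‖ * (c * ‖Y‖))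
  · unfold dI
    apply ContinuousOn.add
    · exact ((continuousOn_const.mul hW).mul continuousOn_const).mul (hW.mul continuousOn_const)
    · exact continuousOn_id.smul
        (((continuousOn_const.mul hW).mul continuousOn_const).mul (hW.mul continuousOn_const))
  · intro u hu
    unfold dI
    have hi : 0 < (1 + u)⁻¹ := by positivity
    have hi1 : (1 + u)⁻¹ ≤ 1 := inv_le_one_of_one_le₀ (by linarith)
    have hi2 : u * (1 + u)⁻¹ ≤ 1 := by
      rw [← div_eq_mul_inv, div_le_one (by positivity)]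
      linarith
    have hWb := hb u hu
    have n1 : ‖X * W X Y u * dY * (W X Y u * X)‖ ≤
        ‖X‖ * c * ‖dY‖ * (c * ‖X‖) * (1 + u)⁻¹ := by
      calc _ ≤ ‖X‖ * ‖W X Y u‖ * ‖dY‖ * (‖W X Y u‖ * ‖X‖) := norm_five _ _ _ _ _
        _ ≤ ‖X‖ * (c * (1 + u)⁻¹) * ‖dY‖ * ((c * (1 + u)⁻¹) * ‖X‖) := by gcongr
        _ = (‖X‖ * c * ‖dY‖ * (c * ‖X‖) * (1 + u)⁻¹) * (1 + u)⁻¹ := by ring
        _ ≤ (‖X‖ * c * ‖dY‖ * (c * ‖X‖) * (1 + u)⁻¹) * 1 :=
            mul_le_mul_of_nonneg_left hi1 (by positivity)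
        _ = _ := mul_one _
    have n2 : ‖u • (Y * W X Y u * dX * (W X Y u * Y))‖ ≤
        ‖Y‖ * c * ‖dX‖ * (c * ‖Y‖) * (1 + u)⁻¹ := by
      rw [norm_smul, Real.norm_of_nonneg hu.le]
      calc _ ≤ u * (‖Y‖ * ‖W X Y u‖ * ‖dX‖ * (‖W X Y u‖ * ‖Y‖)) :=
            mul_le_mul_of_nonneg_left (norm_five _ _ _ _ _) hu.le
        _ ≤ u * (‖Y‖ * (c * (1 + u)⁻¹) * ‖dX‖ * ((c * (1 + u)⁻¹) * ‖Y‖)) := by gcongr
        _ = (‖Y‖ * c * ‖dX‖ * (c * ‖Y‖) * (1 + u)⁻¹) * (u * (1 + u)⁻¹) := by ring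
        _ ≤ (‖Y‖ * c * ‖dX‖ * (c * ‖Y‖) * (1 + u)⁻¹) * 1 :=
            mul_le_mul_of_nonneg_left hi2 (by positivity)
        _ = _ := mul_one _
    calc _ ≤ _ := norm_add_le _ _
      _ ≤ _ := add_le_add n1 n2
      _ = _ := by ring

/-- pointwise goodness -/
lemma Good.point {x0 x1 x2 dx1 dx2 y0 y1 y2 dy1 dy2 : A}
    (hX : Good x0 x1 x2 dx1 dx2) (hY : Good y0 y1 y2 dy1 dy2)
    (px0 : IsStrictlyPositive x0) (px1 : IsStrictlyPositive x1) (px2 : IsStrictlyPositive x2)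
    (py0 : IsStrictlyPositive y0) (py1 : IsStrictlyPositive y1) (py2 : IsStrictlyPositive y2)
    {u : ℝ} (hu : 0 < u) :
    Good (y0 * W x0 y0 u * x0) (y1 * W x1 y1 u * x1) (y2 * W x2 y2 u * x2)
      (dI x1 y1 dx1 dy1 u) (dI x2 y2 dx2 dy2 u) := by
  have hZ := hY.smul hu.le
  have key := Good.par hX hZ px0.isSelfAdjoint px1.isSelfAdjoint px2.isSelfAdjoint
    (by rw [star_smul, py0.isSelfAdjoint, star_trivial])
    (by rw [star_smul, py1.isSelfAdjoint, star_trivial])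
    (by rw [star_smul, py2.isSelfAdjoint, star_trivial])
    (star_W px0 py0 hu) (star_W px1 py1 hu) (star_W px2 py2 hu)
    (W_mul px0 py0 hu) (W_mul px1 py1 hu) (W_mul px2 py2 hu)
    (mul_W px0 py0 hu) (mul_W px1 py1 hu) (mul_W px2 py2 hu)
  have key2 := key.smul (inv_pos.mpr hu).le
  have hc : u⁻¹ * u = 1 := inv_mul_cancel₀ hu.ne'
  have e : ∀ x y : A, u⁻¹ • (u • y * W x y u * x) = y * W x y u * x := by
    intro x y
    rw [smul_mul_assoc, smul_mul_assoc, smul_smul, hc, one_smul]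
  have e2 : ∀ x y dx dy : A, u⁻¹ • (x * W x y u * (u • dy) * (W x y u * x) +
      u • y * W x y u * dx * (W x y u * (u • y))) = dI x y dx dy u := by
    intro x y dx dy
    unfold dI
    have hc2 : u⁻¹ * (u * u) = u := by rw [← mul_assoc, hc, one_mul]
    simp only [smul_mul_assoc, mul_smul_comm, smul_add, smul_smul, hc, hc2, one_smul]
  rw [e, e, e, e2, e2] at key2
  exact key2

/-- **Closure of `Good` under the weighted geometric mean.** -/
lemma Good.geom {x0 x1 x2 dx1 dx2 y0 y1 y2 dy1 dy2 : A}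
    (hX : Good x0 x1 x2 dx1 dx2) (hY : Good y0 y1 y2 dy1 dy2)
    (px0 : IsStrictlyPositive x0) (px1 : IsStrictlyPositive x1) (px2 : IsStrictlyPositive x2)
    (py0 : IsStrictlyPositive y0) (py1 : IsStrictlyPositive y1) (py2 : IsStrictlyPositive y2)
    {c : ℝ} (hc : 0 < c) (hx1 : x1 = algebraMap ℝ A c) (hy1 : y1 = algebraMap ℝ A c)
    {p : ℝ} (hp : p ∈ Ioo 0 1) :
    ∃ d2, Good
      (y0 ^ ((1 : ℝ) / 2) * (y0 ^ (-((1 : ℝ) / 2)) * x0 * y0 ^ (-((1 : ℝ) / 2))) ^ p *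
        y0 ^ ((1 : ℝ) / 2))
      (algebraMap ℝ A c)
      (y2 ^ ((1 : ℝ) / 2) * (y2 ^ (-((1 : ℝ) / 2)) * x2 * y2 ^ (-((1 : ℝ) / 2))) ^ p *
        y2 ^ ((1 : ℝ) / 2))
      ((1 - p) • dy1 + p • dx1) d2 := by
  obtain ⟨μ, hμ, hμA⟩ := exists_mu A (p := ⟨p, hp.1.le⟩)
    ⟨by exact_mod_cast hp.1, by exact_mod_cast hp.2⟩
  have hμ' : RepMeasure p μ := hμ
  refine ⟨∫ u in Ioi 0, u ^ (p - 1) • dI x2 y2 dx2 dy2 u ∂μ, ?_⟩
  rw [repr_mean hp hμA px0 py0, repr_mean hp hμA px2 py2]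
  have hW1 : ∀ u : ℝ, 0 < u → W x1 y1 u = algebraMap ℝ A (c⁻¹ * (1 + u)⁻¹) := by
    intro u hu
    have h1u : (1 + u) ≠ 0 := by positivity
    apply inv_unique (sp_add px1 py1 hu).isUnit
    rw [hx1, hy1, Algebra.smul_def, ← map_mul, ← map_add, ← map_mul]
    rw [← map_one (algebraMap ℝ A)]
    congr 1
    field_simp
  have hmid : (algebraMap ℝ A c) = ∫ u in Ioi 0, u ^ (p - 1) • (y1 * W x1 y1 u * x1) ∂μ := by
    have : (algebraMap ℝ A c) = ∫ u in Ioi 0, (u ^ (p - 1) * (1 + u)⁻¹) • (algebraMap ℝ A c) ∂μ := by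
      rw [integral_smul_const, integral_base hp hμ', one_smul]
    rw [this]
    refine setIntegral_congr_fun measurableSet_Ioi ?_
    intro u hu
    have hu' : (0 : ℝ) < u := hu
    simp only
    rw [hW1 u hu', mul_smul]
    congr 1
    rw [hx1, hy1, ← map_mul, ← map_mul, Algebra.smul_def, ← map_mul]
    congr 1
    field_simp
  have hd : (1 - p) • dy1 + p • dx1 = ∫ u in Ioi 0, u ^ (p - 1) • dI x1 y1 dx1 dy1 u ∂μ := by
    have h1 : (1 - p) • dy1 + p • dx1 =
        (∫ u in Ioi 0, (u ^ (p - 1) • ((1 + u)⁻¹ * (1 + u)⁻¹)) • dy1 ∂μ) +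
        (∫ u in Ioi 0, (u ^ (p - 1) • (u * ((1 + u)⁻¹ * (1 + u)⁻¹))) • dx1 ∂μ) := by
      rw [integral_smul_const, integral_smul_const, integral_alpha hp hμ', integral_beta hp hμ']
    have hint1 : IntegrableOn (fun u => u ^ (p - 1) • ((1 + u)⁻¹ * (1 + u)⁻¹)) (Ioi 0) μ := by
      apply integrableOn_weighted hp hμ' (c := 1)
      · exact continuousOn_inv1.mul continuousOn_inv1
      · intro u hu
        rw [Real.norm_of_nonneg (by positivity), one_mul]
        have h1 : (1 + u)⁻¹ ≤ 1 := inv_le_one_of_one_le₀ (by linarith)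
        calc (1 + u)⁻¹ * (1 + u)⁻¹ ≤ 1 * (1 + u)⁻¹ :=
              mul_le_mul_of_nonneg_right h1 (by positivity)
          _ = (1 + u)⁻¹ := one_mul _
    have hint2 : IntegrableOn (fun u => u ^ (p - 1) • (u * ((1 + u)⁻¹ * (1 + u)⁻¹)))
        (Ioi 0) μ := by
      apply integrableOn_weighted hp hμ' (c := 1)
      · exact continuousOn_id.mul (continuousOn_inv1.mul continuousOn_inv1)
      · intro u hu
        rw [Real.norm_of_nonneg (by positivity), one_mul]
        have h1 : u * (1 + u)⁻¹ ≤ 1 := by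
          rw [← div_eq_mul_inv, div_le_one (by positivity)]
          linarith
        calc u * ((1 + u)⁻¹ * (1 + u)⁻¹) = (u * (1 + u)⁻¹) * (1 + u)⁻¹ := by ring
          _ ≤ 1 * (1 + u)⁻¹ := mul_le_mul_of_nonneg_right h1 (by positivity)
          _ = (1 + u)⁻¹ := one_mul _
    rw [h1, ← integral_add (hint1.smul_const dy1) (hint2.smul_const dx1)]
    refine setIntegral_congr_fun measurableSet_Ioi ?_
    intro u hu
    have hu' : (0 : ℝ) < u := hu
    have h1u : (1 + u) ≠ 0 := by positivity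
    simp only
    unfold dI
    rw [hW1 u hu', hx1, hy1, ← map_mul, ← map_mul]
    have hs : c * (c⁻¹ * (1 + u)⁻¹) = (1 + u)⁻¹ := by field_simp
    have hs' : (c⁻¹ * (1 + u)⁻¹) * c = (1 + u)⁻¹ := by field_simp
    rw [hs, hs']
    simp only [Algebra.algebraMap_eq_smul_one, smul_mul_assoc, one_mul, mul_smul_comm, mul_one,
      smul_smul, smul_add]
    ring_nf
  rw [hmid, hd]
  apply Good.integral (integrableOn_mean hp hμ' px0 py0) (integrableOn_mean hp hμ' px1 py1)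
    (integrableOn_mean hp hμ' px2 py2) (integrableOn_dI hp hμ' px1 py1 _ _)
    (integrableOn_dI hp hμ' px2 py2 _ _)
  filter_upwards [ae_restrict_mem measurableSet_Ioi] with u hu
  have hu' : (0 : ℝ) < u := hu
  exact (hX.point hY px0 px1 px2 py0 py1 py2 hu').smul (Real.rpow_nonneg hu'.le _)

end CStar

end Pool.Agent.W_MP_be8317_an
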