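import Mathlib
import Pool.Agent.W_MP_be8317_an.Geom

/-!
The recursively defined geometric mean and the operator Alzer inequality in a C*-algebra.
-/

namespace Pool.Agent.W_MP_be8317_an

open Set Real

variable {A : Type*} [CStarAlgebra A] [PartialOrder A] [StarOrderedRing A]

/-- The weighted mean. -/
noncomputable def Ph (p : ℝ) (X Y : A) : A :=
  Y ^ ((1 : ℝ) / 2) * (Y ^ (-((1 : ℝ) / 2)) * X * Y ^ (-((1 : ℝ) / 2))) ^ p * Y ^ ((1 : ℝ) / 2)

/-- The recursively defined geometric mean. -/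
noncomputable def GM : (m : ℕ) → (Fin m → A) → A
  | 0, _ => 1
  | 1, X => X 0
  | (m + 2), X => Ph ((1 : ℝ) / ((m + 2 : ℕ) : ℝ)) (X 0) (GM (m + 1) (fun i => X i.succ))

lemma sp_conj {S T : A} (hS : star S = S) (hu : IsUnit S) (hT : IsStrictlyPositive T) :
    IsStrictlyPositive (S * T * S) := by
  refine ⟨?_, (hu.mul hT.isUnit).mul hu⟩
  have := star_left_conjugate_nonneg hT.nonneg S
  rwa [hS] at this

lemma sp_Ph {X Y : A} (hX : IsStrictlyPositive X) (hY : IsStrictlyPositive Y) (p : ℝ) :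
    IsStrictlyPositive (Ph p X Y) := by
  unfold Ph
  have h1 : IsStrictlyPositive (Y ^ ((1 : ℝ) / 2)) := IsStrictlyPositive.rpow Y _ hY
  have h2 : IsStrictlyPositive (Y ^ (-((1 : ℝ) / 2))) := IsStrictlyPositive.rpow Y _ hY
  have h3 : IsStrictlyPositive (Y ^ (-((1 : ℝ) / 2)) * X * Y ^ (-((1 : ℝ) / 2))) :=
    sp_conj h2.isSelfAdjoint h2.isUnit hX
  exact sp_conj h1.isSelfAdjoint h1.isUnit (IsStrictlyPositive.rpow _ _ h3)

lemma sp_GM (m : ℕ) (X : Fin (m + 1) → A) (hX : ∀ i, IsStrictlyPositive (X i)) :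
    IsStrictlyPositive (GM (m + 1) X) := by
  induction m with
  | zero => exact hX 0
  | succ m ih => exact sp_Ph (hX 0) (ih _ (fun i => hX i.succ)) _

lemma good_GM (m : ℕ) (X0 X1 X2 D E : Fin (m + 1) → A) {c : ℝ} (hc : 0 < c)
    (hg : ∀ i, Good (X0 i) (X1 i) (X2 i) (D i) (E i))
    (h0 : ∀ i, IsStrictlyPositive (X0 i)) (h1 : ∀ i, X1 i = algebraMap ℝ A c)
    (h2 : ∀ i, IsStrictlyPositive (X2 i)) :
    ∃ d2, Good (GM (m + 1) X0) (algebraMap ℝ A c) (GM (m + 1) X2)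
      (((m + 1 : ℕ) : ℝ)⁻¹ • ∑ i, D i) d2 := by
  have hspc : IsStrictlyPositive (algebraMap ℝ A c) := by
    refine ⟨algebraMap_nonneg A hc.le, ?_⟩
    exact (IsUnit.mk0 _ hc.ne').map (algebraMap ℝ A)
  induction m with
  | zero =>
    refine ⟨E 0, ?_⟩
    have := hg 0
    rw [h1 0] at this
    simpa [GM] using this
  | succ m ih =>
    obtain ⟨d2, hd2⟩ := ih (fun i => X0 i.succ) (fun i => X1 i.succ) (fun i => X2 i.succ)
      (fun i => D i.succ) (fun i => E i.succ) (fun i => hg i.succ) (fun i => h0 i.succ)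
      (fun i => h1 i.succ) (fun i => h2 i.succ)
    have hp : (1 : ℝ) / ((m + 2 : ℕ) : ℝ) ∈ Ioo (0 : ℝ) 1 := by
      constructor
      · positivity
      · rw [div_lt_one (by positivity)]
        push_cast
        have : (0 : ℝ) ≤ m := Nat.cast_nonneg m
        linarith
    have hx1 : IsStrictlyPositive (X1 0) := by rw [h1 0]; exact hspc
    obtain ⟨e2, he2⟩ := Good.geom (hg 0) hd2 (h0 0) hx1 (h2 0)
      (sp_GM m _ (fun i => h0 i.succ)) hspc (sp_GM m _ (fun i => h2 i.succ)) hc (h1 0) rfl hp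
    refine ⟨e2, ?_⟩
    have hsum : (((m + 1 + 1 : ℕ) : ℝ)⁻¹ • ∑ i, D i) =
        (1 - (1 : ℝ) / ((m + 2 : ℕ) : ℝ)) • (((m + 1 : ℕ) : ℝ)⁻¹ • ∑ i : Fin (m + 1), D i.succ) +
          ((1 : ℝ) / ((m + 2 : ℕ) : ℝ)) • D 0 := by
      rw [Fin.sum_univ_succ, smul_add, smul_smul, add_comm]
      have hm : ((m : ℝ) + 1) ≠ 0 := by positivity
      have hm2 : ((m : ℝ) + 2) ≠ 0 := by positivity
      congr 2
      · push_cast
        field_simp
        ring
      · push_cast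
        rw [one_div]
        ring_nf
    rw [hsum]
    exact he2

/-- The operator version of Alzer's inequality in a unital C*-algebra. -/
theorem alzer (m : ℕ) (X : Fin (m + 1) → A) (hX : ∀ i, IsStrictlyPositive (X i))
    (hle : ∀ i, X i ≤ algebraMap ℝ A (1 / 2)) :
    0 ≤ (((m + 1 : ℕ) : ℝ)⁻¹ • ∑ i, X i - GM (m + 1) X) -
      (((m + 1 : ℕ) : ℝ)⁻¹ • ∑ i, (1 - X i) - GM (m + 1) (fun i => 1 - X i)) := by
  have hone : algebraMap ℝ A (1 / 2) + algebraMap ℝ A (1 / 2) = 1 := by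
    rw [← map_add, ← map_one (algebraMap ℝ A)]
    norm_num
  have h2 : ∀ i, IsStrictlyPositive (1 - X i) := by
    intro i
    have hsp : IsStrictlyPositive (algebraMap ℝ A (1 / 2)) := by
      refine ⟨algebraMap_nonneg A (by norm_num), ?_⟩
      exact (IsUnit.mk0 _ (by norm_num)).map (algebraMap ℝ A)
    apply hsp.of_le
    have := hle i
    calc algebraMap ℝ A (1 / 2) = 1 - algebraMap ℝ A (1 / 2) := by
          rw [← hone]; abel
      _ ≤ 1 - X i := sub_le_sub_left this 1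
  have hg : ∀ i, Good (X i) (algebraMap ℝ A (1 / 2)) (1 - X i)
      (algebraMap ℝ A (1 / 2) - X i) (algebraMap ℝ A (1 / 2) - X i) := by
    intro i
    have := Good.linear (hX i).nonneg (sub_nonneg.mpr (hle i))
    have e1 : X i + (algebraMap ℝ A (1 / 2) - X i) = algebraMap ℝ A (1 / 2) := by abel
    have e2 : algebraMap ℝ A (1 / 2) + (algebraMap ℝ A (1 / 2) - X i) = 1 - X i := by
      rw [← hone]; abel
    rw [e1, e2] at this
    exact this
  obtain ⟨d2, hd2⟩ := good_GM m X (fun _ => algebraMap ℝ A (1 / 2)) (fun i => 1 - X i)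
    (fun i => algebraMap ℝ A (1 / 2) - X i) (fun i => algebraMap ℝ A (1 / 2) - X i)
    (by norm_num : (0 : ℝ) < 1 / 2) hg hX (fun _ => rfl) h2
  have hfin := hd2.final
  have e : (((m + 1 : ℕ) : ℝ)⁻¹ • ∑ i, X i - GM (m + 1) X) -
      (((m + 1 : ℕ) : ℝ)⁻¹ • ∑ i, (1 - X i) - GM (m + 1) (fun i => 1 - X i)) =
      GM (m + 1) (fun i => 1 - X i) - GM (m + 1) X -
      (((m + 1 : ℕ) : ℝ)⁻¹ • ∑ i, (algebraMap ℝ A (1 / 2) - X i) +
        ((m + 1 : ℕ) : ℝ)⁻¹ • ∑ i, (algebraMap ℝ A (1 / 2) - X i)) := by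
    have hs : ((m + 1 : ℕ) : ℝ)⁻¹ • ∑ i, (algebraMap ℝ A (1 / 2) - X i) +
        ((m + 1 : ℕ) : ℝ)⁻¹ • ∑ i, (algebraMap ℝ A (1 / 2) - X i) =
        ((m + 1 : ℕ) : ℝ)⁻¹ • ∑ i, (1 - X i) - ((m + 1 : ℕ) : ℝ)⁻¹ • ∑ i, X i := by
      rw [← smul_add, ← smul_sub, ← Finset.sum_add_distrib, ← Finset.sum_sub_distrib]
      congr 1
      apply Finset.sum_congr rfl
      intro i _
      rw [← hone]; abel
    rw [hs]
    abel
  rw [e]
  exact hfin

end Pool.Agent.W_MP_be8317_an
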